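import Pool.Agent.X279.AB.Frob

/-!
# Abelianness of Chow motives bounds the Chow groups by the order of the pole of the zeta function

`C` is a `ℚ`-linear rigid symmetric monoidal category whose unit object has only rational scalars as
endomorphisms, with a symmetric monoidal additive functor `R` to finite dimensional super vector
spaces over a field `K`; for the problem `C` is the category `CHMot(k)` of Chow motives over a finite
field, `R` is `ℓ`-adic cohomology. We assume that `C` is abelian (nothing is assumed about the
exactness or the faithfulness of `R`).

Theorem. Let `M` be a Kimura-finite object of `C` and let `φ` be an endomorphism of `M` which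
fixes all morphisms `𝟙 → M` (such as the Frobenius endomorphism of a motive over a finite field, as
it commutes with all morphisms of motives). Then `Hom(𝟙, M)` is finite-dimensional over `ℚ`, and its
dimension is at most the multiplicity `d` of the eigenvalue `1` of `φ` on the even part of the
realisation of `M`. There is equality if and only if there are `z_1, …, z_d : 𝟙 → M` and
`w_1, …, w_d : M → 𝟙` with `w_j ∘ z_i = δ_{ij}`.

For `M = h(X)(r)` with `X` of abelian type (a product of curves, an abelian variety) over a finite
field with `q` elements, and for the Frobenius endomorphism: if `CHMot(k)` is abelian, then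
`CH^r(X)_ℚ` has finite dimension, at most the order of the pole of the zeta function of `X` at
`s = r`; and equality holds if and only if the pole order is the dimension of the space of cycles
modulo numerical equivalence (the strong form of the Tate conjecture).

Steps of the proof. (1) In an abelian rigid category with `End(𝟙) = ℚ` the nonzero morphisms
`z : 𝟙 → M` are monomorphisms. (2) For such a `z` the (anti)symmetrization of `M ^ n ⊗ z`, projected
to `(M / z) ^ n ⊗ M`, is a multiple of the antisymmetrization of `(M / z) ^ n`, tensored with `z`;
so if the exterior power of degree `n + 1` of `M` vanishes, then the one of degree `n` of `M / z`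
vanishes. Induction gives `dim Hom(𝟙, M) ≤ n`, and in the case of equality a splitting of all
the `z_i`. (3) Morphisms from `𝟙` to odd objects vanish, since the tensor powers of a
monomorphism are symmetric and nonzero. (4) By the theorem of Cayley and Hamilton for even objects
the generalised eigenspace of `φ` for the eigenvalue `1` is cut out by an idempotent of the even
part of `M`; the number `n` for this part is the dimension of its realisation.
-/

set_option autoImplicit false

open CategoryTheory Limits MonoidalCategory

namespace Pool.Agent.Results.MP_6c4da4_ag.DimensionBound

open Pool.Agent.Y112.SR Pool.Agent.Y112.KD Pool.Agent.X264.KF Pool.Agent.X279.AB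

universe v u w

theorem result {C : Type u} [Category.{v} C] [Abelian C] [Linear ℚ C] [MonoidalCategory C]
    [MonoidalPreadditive C] [MonoidalLinear ℚ C] [SymmetricCategory C] [RightRigidCategory C]
    (hU : UnitQ C) {K : Type w} [Field K] (R : SuperRealisation C K)
    (M : C) (hM : IsKimuraFinite M) (φ : M ⟶ M) (hφ : ∀ z : 𝟙_ C ⟶ M, z ≫ φ = z) :
    Module.Finite ℚ (𝟙_ C ⟶ M) ∧ Module.finrank ℚ (𝟙_ C ⟶ M) ≤ evenMult R φ ∧
    (Module.finrank ℚ (𝟙_ C ⟶ M) = evenMult R φ ↔
      ∃ (z : Fin (evenMult R φ) → (𝟙_ C ⟶ M)) (w : Fin (evenMult R φ) → (M ⟶ 𝟙_ C)),
        ∀ i j, z i ≫ w j = if i = j then 𝟙 _ else 0) :=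
  bound_frob R hU hM φ hφ

end Pool.Agent.Results.MP_6c4da4_ag.DimensionBound
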