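import Pool.Agent.X279.AB.Ext

/-!
# Abelianness of Chow motives does not change under finite extensions of the base field

For the problem `C = CHMot(k)` and `D = CHMot(k')` are the categories of Chow motives over a finite
field `k` and over a finite extension `k'` of degree `n`, the functor `F` is the extension of
scalars `h(X) ↦ h(X ×_k k')`, and `U` is the restriction of scalars, which sends the motive of a
`k'`-variety `Y` to the motive of `Y` as a `k`-variety. As
`CH(X ×_k Y) = CH((X ×_k k') ×_{k'} Y)`, the functor `U` is right and left adjoint to `F`. Moreover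
`U F M = M ⊗ h(Spec k')`, and the unit `𝟙 → h(Spec k')` and `1/n` times the trace
`h(Spec k') → 𝟙` make `M` a natural direct summand of `U F M`; and `N` is a natural direct summand
of `F U N`, the motive of `N ×_{k'} (k' ⊗_k k')`, given by the component of the diagonal in
`Spec (k' ⊗_k k')`.

Theorem. In this situation (for any two adjoint pairs with such natural splittings) `C` is abelian if
and only if `D` is abelian. So `CHMot(F_q)` is abelian if and only if `CHMot(F_p)` is abelian, where
`p` is the characteristic: the answer to the question depends only on `p`.

Proof. A morphism `f` of `C` is a retract of `U F f`, and `U` preserves kernels and cokernels; in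
an idempotent complete category a retract of a morphism with a kernel (cokernel) has one. `F`
preserves kernels and cokernels, hence it maps the comparison from the coimage of `f` to the image of
`f` to the one of `F f`; and `F` reflects isomorphisms.
-/

set_option autoImplicit false

open CategoryTheory Limits

namespace Pool.Agent.Results.MP_6c4da4_ag.FiniteExtensions

open Pool.Agent.X279.AB

universe v u v' u'

theorem result {C : Type u} [Category.{v} C] [Preadditive C] [IsIdempotentComplete C]
    {D : Type u'} [Category.{v'} D] [Preadditive D] [IsIdempotentComplete D]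
    (F : C ⥤ D) (U : D ⥤ C) [F.Additive] [U.Additive] (adj1 : F ⊣ U) (adj2 : U ⊣ F)
    (i : 𝟭 C ⟶ F ⋙ U) (r : F ⋙ U ⟶ 𝟭 C) (hir : i ≫ r = 𝟙 _)
    (j : 𝟭 D ⟶ U ⋙ F) (s : U ⋙ F ⟶ 𝟭 D) (hjs : j ≫ s = 𝟙 _) : IsAb C ↔ IsAb D :=
  ⟨isAb_of U F adj2 adj1 j s hjs, isAb_of F U adj1 adj2 i r hir⟩

end Pool.Agent.Results.MP_6c4da4_ag.FiniteExtensions
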