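import Pool.Agent.X279.AB.Smash

/-!
# If Chow motives are abelian then exterior products of nonzero cycles are nonzero

`C` is an abelian `ℚ`-linear rigid symmetric monoidal category whose unit object has only rational
scalars as endomorphisms; for the problem `C` is the category `CHMot(k)` of Chow motives over a
finite field, under the assumption that it is abelian.

Theorem. (1) If `f ⊗ g = 0` for two morphisms of `C` then `f = 0` or `g = 0`; so a cycle
`z ≠ 0` in `CH^r(X)_ℚ` has nonzero exterior products with all nonzero cycles on all varieties.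
(2) A smash nilpotent morphism is zero. (3) There are no nonzero morphisms between the unit and an
object killed by a symmetric power. (4) Voevodsky's conjecture (numerically trivial morphisms are
smash nilpotent) holds in `C` if and only if rational and numerical equivalence coincide.

In particular one nonzero smash nilpotent cycle on a smooth projective variety over `k` would show
that `CHMot(k)` is not abelian.

Proof. Nonzero morphisms `𝟙 → M` are monomorphisms, in particular the coevaluation of a nonzero
object `Q`, so `- ⊗ Q` is faithful; now factor `g` through its image `Q`.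
-/

set_option autoImplicit false

open CategoryTheory Limits MonoidalCategory

namespace Pool.Agent.Results.MP_6c4da4_ag.NoZeroDivisors

open Pool.Agent.Y112.SR Pool.Agent.Y112.KD Pool.Agent.X264.KF Pool.Agent.X279.AB

universe v u

theorem result {C : Type u} [Category.{v} C] [Abelian C] [Linear ℚ C] [MonoidalCategory C]
    [MonoidalPreadditive C] [MonoidalLinear ℚ C] [SymmetricCategory C] [RightRigidCategory C]
    (hU : UnitQ C) :
    (∀ (X Y A B : C) (f : X ⟶ Y) (g : A ⟶ B), f ⊗ₘ g = 0 → f = 0 ∨ g = 0) ∧
    (∀ (X Y : C) (f : X ⟶ Y), SmashNilpotent f → f = 0) ∧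
    (∀ (B : C) (m : ℕ), Kills 1 B m → (∀ f : 𝟙_ C ⟶ B, f = 0) ∧ ∀ g : B ⟶ 𝟙_ C, g = 0) ∧
    ((∀ (X Y : C) (f : X ⟶ Y), NumTrivial hU f → SmashNilpotent f) ↔
      ∀ (X Y : C) (f : X ⟶ Y), NumTrivial hU f → f = 0) :=
  ⟨fun _ _ _ _ f g => eq_zero_or_of_tensor hU f g,
    fun _ _ f ⟨n, hn⟩ => eq_zero_of_tpm hU f n hn,
    fun B m h => ⟨fun f => eq_zero_of_odd hU ((kills_iff (by norm_num) B m).mp h) f,
      fun g => eq_zero_of_odd' hU ((kills_iff (by norm_num) B m).mp h) g⟩,
    voevodsky_iff hU⟩

end Pool.Agent.Results.MP_6c4da4_ag.NoZeroDivisors
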