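import Pool.Agent.X279.AB.Dual3

/-!
# If Chow motives are abelian, symmetric dualities give rational = numerical equivalence

`C` is an abelian `ℚ`-linear rigid symmetric monoidal category whose unit object has only rational
scalars as endomorphisms, with a symmetric monoidal additive functor `R` to finite dimensional super
vector spaces over a field `K`; for the problem `C` is the category `CHMot(k)` of Chow motives over
a finite field, under the assumption that it is abelian. `π` is a natural endomorphism of the
identity functor which is the identity on the unit object; for the problem it is the Frobenius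
endomorphism.

Theorem. The following are equivalent.

(a) Rational and numerical equivalence coincide on Kimura-finite motives: every numerically trivial
morphism `M → 𝟙` with `M` Kimura-finite is zero.

(b) Every indecomposable object `E` which is killed by an exterior power, on which `π` is
unipotent, and which has a nonzero morphism to `𝟙`, carries modulo numerical equivalence a perfect
symmetric pairing `E ⊗ E → 𝟙`.

Condition (b) concerns only the numerical motive of `E`, which is a simple numerical motive of
weight zero all of whose Frobenius eigenvalues are `1`. Such pairings exist if the polarization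
forms are positive (standard conjecture of Hodge type); by the Tate conjecture `E` would be `𝟙`.

Steps of the proof of (b) ⇒ (a). Let `g : E → 𝟙` be a nonzero nonsplit morphism with `E` killed by
`Λ ^ (n + 1)`, with `n` minimal. (1) Proper subobjects and proper quotients of `E` are killed by
`Λ ^ n`; hence `E` is indecomposable, the restriction of `g` to every proper subobject vanishes,
and `π - 1` is nilpotent on `E` (Cayley and Hamilton). (2) A symmetric pairing `φ` as in (b) may be
lifted to a perfect symmetric one (Kimura's nilpotence theorem) and gives `u : 𝟙 → E` with
`φ(u, ·) = g`; then `g u = 0`, and by minimality `0 → 𝟙 → E → 𝟙 → 0`, given by `u` and `g`, is exact.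
(3) The map `g ⊗ 1 - 1 ⊗ g : E ⊗ E → E` is killed by `g`, so it is `u ∘ ψ` for a pairing `ψ` with
`ψ(u, ·) = - g`, `ψ(·, u) = g`. The sum `φ + ψ` vanishes on `u ⊗ E`, so it is `g ⊗ h` for some
`h : E → 𝟙`, and its restriction to `E ⊗ u` is `2 g`, so `h u = 2`: the sequence splits, a
contradiction.
-/

set_option autoImplicit false

open CategoryTheory Limits MonoidalCategory

namespace Pool.Agent.Results.MP_6c4da4_ag.SelfDuality

open Pool.Agent.Y112.SR Pool.Agent.Y112.KD Pool.Agent.X264.KF Pool.Agent.X279.AB

universe v u w

theorem result {C : Type u} [Category.{v} C] [Abelian C] [Linear ℚ C] [MonoidalCategory C]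
    [MonoidalPreadditive C] [MonoidalLinear ℚ C] [SymmetricCategory C] [RightRigidCategory C]
    (hU : UnitQ C) {K : Type w} [Field K] (R : SuperRealisation C K)
    (π : 𝟭 C ⟶ 𝟭 C) (hπ : π.app (𝟙_ C) = 𝟙 (𝟙_ C)) :
    RatEqNum C ↔ SymmetricDualities hU π :=
  ratEqNum_iff R hU π hπ

end Pool.Agent.Results.MP_6c4da4_ag.SelfDuality
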